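import Pool.Agent.U788.ES.Enr

/-!
# ES: the induction on the dimension of the resonance
-/

set_option autoImplicit false

open Set Filter Topology MeasureTheory
open scoped RealInnerProductSpace

noncomputable section

namespace Pool.Agent.U788.ES

variable {E : Type} [NormedAddCommGroup E] [InnerProductSpace ℝ E] [FiniteDimensional ℝ E]
variable {F : E → ℝ → E} {hh uu : E → ℝ → ℝ} {M : ℝ}

/-- the statement proved by induction on `r` -/
def St (F : E → ℝ → E) (hh uu : E → ℝ → ℝ) (r : ℕ) (ε : ℝ) : Prop :=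
  ∃ T η : ℝ, 0 < T ∧ 0 < η ∧ η ≤ 1 ∧ ∀ (N : ℕ) (p : TP E (Fin N)), Near F hh uu p η →
    ∀ W : Submodule ℝ E, Module.finrank ℝ W ≤ r → ∀ x v, Orb F x v → ∀ s : ℝ,
      (∀ t ∈ Icc s (s + T), ‖W.starProjection (v t - v s) - ∫ τ in s..t, p.g W (x τ) τ‖ ≤ η) →
      -(∫ τ in s..(s + T), p.h W (x τ) τ) ≤ ε * T

theorem st_zero (hM : Bd F hh uu M) (ε : ℝ) (hε : 0 < ε) : St F hh uu 0 ε := by
  have hM1 := hM.M1
  refine ⟨4 * M / ε, min 1 (ε / (2 * M)), by positivity, by positivity, min_le_left _ _, ?_⟩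
  intro N p hp W hW x v ho s hρ
  have hW0 : W = ⊥ := Submodule.finrank_eq_zero.1 (by omega)
  have hT : 0 < 4 * M / ε := by positivity
  have h1 := energy p W ho.dx (min 1 (ε / (2 * M))) s (s + 4 * M / ε)
    (fun x t => hp.gW (min_le_left _ _) hM W x t) (fun x t => hp.uW (min_le_left _ _) hM W x t)
    (by linarith) hρ
  have h2 : W.starProjection (v s) + ∫ τ in s..(s + 4 * M / ε), p.g W (x τ) τ = 0 := by
    have h3 : ∀ y t, p.g W y t = 0 := by
      intro y t
      have := p.g_mem W y t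
      rw [hW0] at this ⊢
      exact (Submodule.mem_bot ℝ).1 this
    have h4 : W.starProjection (v s) = 0 := by
      have := W.starProjection_apply_mem (v s)
      rw [hW0] at this ⊢
      exact (Submodule.mem_bot ℝ).1 this
    rw [h4]
    simp [h3]
  rw [h2] at h1
  have h3 : M * min 1 (ε / (2 * M)) ≤ ε / 2 := by
    calc M * min 1 (ε / (2 * M)) ≤ M * (ε / (2 * M)) := mul_le_mul_of_nonneg_left (min_le_right _ _) (by linarith)
      _ = ε / 2 := by field_simp
  have h4 : M * min 1 (ε / (2 * M)) * (s + 4 * M / ε - s) ≤ ε / 2 * (4 * M / ε) := by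
    rw [add_sub_cancel_left]
    exact mul_le_mul_of_nonneg_right h3 hT.le
  have h5 : ε / 2 * (4 * M / ε) = 2 * M := by field_simp; ring
  have h6 : ε * (4 * M / ε) = 4 * M := by field_simp
  rw [h6]
  rw [h5] at h4
  simp only [norm_zero] at h1
  linarith

theorem proj_int (W : Submodule ℝ E) (g : ℝ → E) (hg : Continuous g) (s t : ℝ) :
    W.starProjection (∫ τ in s..t, g τ) = ∫ τ in s..t, W.starProjection (g τ) :=
  ((W.starProjection).intervalIntegral_comp_comm (hg.intervalIntegrable s t)).symm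

theorem proj_int_mem (W : Submodule ℝ E) (g : ℝ → E) (hg : Continuous g) (hW : ∀ τ, g τ ∈ W) (s t : ℝ) :
    W.starProjection (∫ τ in s..t, g τ) = ∫ τ in s..t, g τ := by
  rw [proj_int W g hg]
  congr 1
  funext τ
  exact Submodule.starProjection_eq_self_iff.2 (hW τ)

theorem proj_proj (W' W : Submodule ℝ E) (h : W' ≤ W) (y : E) :
    W'.starProjection (W.starProjection y) = W'.starProjection y := by
  have := Submodule.starProjection_comp_starProjection_of_le h
  exact congrArg (fun L => L y) this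

/-- the length of the integral of a bounded function -/
theorem int_le {V : Type} [NormedAddCommGroup V] [NormedSpace ℝ V] (f : ℝ → V) (C s t T : ℝ)
    (hC : 0 ≤ C) (hf : ∀ τ, ‖f τ‖ ≤ C) (hs : s ≤ t) (ht : t ≤ s + T) : ‖∫ τ in s..t, f τ‖ ≤ C * T := by
  refine (intervalIntegral.norm_integral_le_of_norm_le_const (C := C) fun τ _ => hf τ).trans ?_
  rw [abs_of_nonneg (by linarith)]
  exact mul_le_mul_of_nonneg_left (by linarith) hC

/-- one window -/
theorem window (hM : Bd F hh uu M) (r : ℕ) (ε' Ts ηs η δ : ℝ) (hTs : 0 < Ts)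
    (hη0 : 0 < η) (hη1 : η ≤ ηs) (hηs : ηs ≤ 1) (hδ : 0 < δ) (hsum : 2 * η + 2 * η * Ts + δ ≤ ηs)
    (hSt : ∀ (N : ℕ) (p : TP E (Fin N)), Near F hh uu p ηs →
      ∀ W : Submodule ℝ E, Module.finrank ℝ W ≤ r → ∀ x v, Orb F x v → ∀ s : ℝ,
      (∀ t ∈ Icc s (s + Ts), ‖W.starProjection (v t - v s) - ∫ τ in s..t, p.g W (x τ) τ‖ ≤ ηs) →
      -(∫ τ in s..(s + Ts), p.h W (x τ) τ) ≤ ε' * Ts)
    (N0 : ℕ) (p0 : TP E (Fin N0)) (hp0 : Near F hh uu p0 η) :
    ∃ V0 : ℝ, 0 ≤ V0 ∧ ∀ (N : ℕ) (p : TP E (Fin N)), Near F hh uu p η → ∀ W : Submodule ℝ E,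
      Module.finrank ℝ W ≤ r + 1 → ∀ x v, Orb F x v → ∀ σ : ℝ, V0 < ‖W.starProjection (v σ)‖ →
      (∀ t ∈ Icc σ (σ + Ts), ‖W.starProjection (v t - v σ) - ∫ τ in σ..t, p.g W (x τ) τ‖ ≤ 2 * η) →
      -(∫ τ in σ..(σ + Ts), p.h W (x τ) τ) ≤ ε' * Ts + δ + 2 * η * Ts := by
  classical
  have hM1 := hM.M1
  have hM0 : 0 ≤ M := by linarith
  obtain ⟨A1, hA1, hf1⟩ := fast (F := F) p0 (fun μ => -p0.c μ • p0.K μ) δ Ts M hδ hTs.le hM0
  obtain ⟨A2, hA2, hf2⟩ := fast (F := F) p0 (fun μ => -p0.c μ * p0.m μ) δ Ts M hδ hTs.le hM0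
  set A : ℝ := max A1 A2 with hA
  obtain ⟨V0, hV0, hV⟩ := vbd p0.K A
  refine ⟨V0, hV0, ?_⟩
  intro N p hp W hW x v ho σ hbig hρ
  have hFM : ∀ x t, ‖F x t‖ ≤ M := fun x t => by have := hM.g x t; linarith
  have hxc : Continuous x := continuous_iff_continuousAt.2 fun s => (ho.dx s).continuousAt
  set W' : Submodule ℝ E := Submodule.span ℝ (p0.K '' {μ | p0.K μ ∈ W ∧ |⟪p0.K μ, v σ⟫| ≤ A}) with hW'
  have hle : W' ≤ W := by
    rw [hW', Submodule.span_le]
    rintro _ ⟨μ, hμ, rfl⟩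
    exact hμ.1
  have hne : ¬ W ≤ W' := fun h => absurd (hV W (v σ) h) (not_le.2 hbig)
  have hlt : W' < W := lt_of_le_of_ne hle fun h => hne h.ge
  have hfr : Module.finrank ℝ W' ≤ r := by
    have := Submodule.finrank_lt_finrank_of_lt hlt
    omega
  have hfast : ∀ μ, p0.K μ ∈ W → p0.K μ ∉ W' → A < |⟪p0.K μ, v σ⟫| := by
    intro μ h1 h2
    by_contra h3
    exact h2 (Submodule.subset_span ⟨μ, ⟨h1, not_lt.1 h3⟩, rfl⟩)
  have g1 : ∀ t ∈ Icc σ (σ + Ts), ‖(∫ τ in σ..t, p0.g W (x τ) τ) - ∫ τ in σ..t, p0.g W' (x τ) τ‖ ≤ δ :=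
    hf1 A (le_max_left _ _) x v ho hFM σ W W' hle hfast
  have g2 : ∀ t ∈ Icc σ (σ + Ts), ‖(∫ τ in σ..t, p0.h W (x τ) τ) - ∫ τ in σ..t, p0.h W' (x τ) τ‖ ≤ δ :=
    hf2 A (le_max_right _ _) x v ho hFM σ W W' hle hfast
  have g3 : ∀ t ∈ Icc σ (σ + Ts), ‖(∫ τ in σ..t, p.g W (x τ) τ) - ∫ τ in σ..t, p0.g W (x τ) τ‖ ≤ 2 * η * Ts := by
    intro t ht
    rw [← intervalIntegral.integral_sub ((g_cont p W hxc).intervalIntegrable _ _)
      ((g_cont p0 W hxc).intervalIntegrable _ _)]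
    exact int_le _ (2 * η) σ t Ts (by linarith) (fun τ => hp.gg hp0 W _ _) ht.1 ht.2
  have g4 : ∀ t ∈ Icc σ (σ + Ts), ‖(∫ τ in σ..t, p.h W (x τ) τ) - ∫ τ in σ..t, p0.h W (x τ) τ‖ ≤ 2 * η * Ts := by
    intro t ht
    rw [← intervalIntegral.integral_sub ((h_cont p W hxc).intervalIntegrable _ _)
      ((h_cont p0 W hxc).intervalIntegrable _ _)]
    exact int_le _ (2 * η) σ t Ts (by linarith)
      (fun τ => by rw [Real.norm_eq_abs]; exact hp.hhW hp0 W _ _) ht.1 ht.2
  have h1 := hSt N0 p0 (hp0.mono hη1) W' hfr x v ho σ ?_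
  · have hT : σ + Ts ∈ Icc σ (σ + Ts) := ⟨by linarith, le_refl _⟩
    have h2 := g2 _ hT
    have h3 := g4 _ hT
    rw [Real.norm_eq_abs] at h2 h3
    have h2' := abs_le.1 h2
    have h3' := abs_le.1 h3
    linarith [h2'.1, h2'.2, h3'.1, h3'.2]
  · intro t ht
    have e1 : W'.starProjection (v t - v σ) - ∫ τ in σ..t, p0.g W' (x τ) τ =
        W'.starProjection ((W.starProjection (v t - v σ) - ∫ τ in σ..t, p.g W (x τ) τ) +
          ((∫ τ in σ..t, p.g W (x τ) τ) - ∫ τ in σ..t, p0.g W (x τ) τ) +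
          ((∫ τ in σ..t, p0.g W (x τ) τ) - ∫ τ in σ..t, p0.g W' (x τ) τ)) := by
      have e2 : (W.starProjection (v t - v σ) - ∫ τ in σ..t, p.g W (x τ) τ) +
          ((∫ τ in σ..t, p.g W (x τ) τ) - ∫ τ in σ..t, p0.g W (x τ) τ) +
          ((∫ τ in σ..t, p0.g W (x τ) τ) - ∫ τ in σ..t, p0.g W' (x τ) τ) =
          W.starProjection (v t - v σ) - ∫ τ in σ..t, p0.g W' (x τ) τ := by abel
      rw [e2, map_sub W'.starProjection (W.starProjection (v t - v σ)), proj_proj W' W hle,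
        proj_int_mem W' _ (g_cont p0 W' hxc) (fun τ => p0.g_mem W' _ _)]
    rw [e1]
    refine (Submodule.norm_starProjection_apply_le W' _).trans ?_
    refine (norm_add_le _ _).trans ?_
    have e3 := norm_add_le (W.starProjection (v t - v σ) - ∫ τ in σ..t, p.g W (x τ) τ)
      ((∫ τ in σ..t, p.g W (x τ) τ) - ∫ τ in σ..t, p0.g W (x τ) τ)
    have e4 := hρ t ht
    have e5 := g3 t ht
    have e6 := g1 t ht
    linarith

theorem st_succ (hM : Bd F hh uu M) (hd : ∀ η : ℝ, 0 < η → ∃ (N : ℕ) (p : TP E (Fin N)), Near F hh uu p η)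
    (r : ℕ) (hr : ∀ ε : ℝ, 0 < ε → St F hh uu r ε) (ε : ℝ) (hε : 0 < ε) : St F hh uu (r + 1) ε := by
  have hM1 := hM.M1
  obtain ⟨Ts, ηs, hTs, hηs, hηs1, hSt⟩ := hr (ε / 4) (by linarith)
  set δ : ℝ := min (ηs / 4) (ε * Ts / 8) with hδd
  have hδ : 0 < δ := by positivity
  set η : ℝ := min (min (ηs / 4) (ηs / (8 * Ts))) (min (ε / (4 * M)) (ε / 16)) with hηd
  have hη : 0 < η := by positivity
  have k1 : η ≤ ηs / 4 := (min_le_left _ _).trans (min_le_left _ _)
  have k2 : η * Ts ≤ ηs / 8 := by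
    have : η ≤ ηs / (8 * Ts) := (min_le_left _ _).trans (min_le_right _ _)
    calc η * Ts ≤ ηs / (8 * Ts) * Ts := mul_le_mul_of_nonneg_right this hTs.le
      _ = ηs / 8 := by field_simp
  have k3 : M * η ≤ ε / 4 := by
    have : η ≤ ε / (4 * M) := (min_le_right _ _).trans (min_le_left _ _)
    calc M * η ≤ M * (ε / (4 * M)) := mul_le_mul_of_nonneg_left this (by linarith)
      _ = ε / 4 := by field_simp
  have k4 : η ≤ ε / 16 := (min_le_right _ _).trans (min_le_right _ _)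
  have k5 : δ ≤ ηs / 4 := min_le_left _ _
  have k6 : δ ≤ ε * Ts / 8 := min_le_right _ _
  obtain ⟨N0, p0, hp0⟩ := hd η hη
  obtain ⟨V0, hV0, hwin⟩ := window hM r (ε / 4) Ts ηs η δ hTs hη (by linarith) hηs1 hδ (by nlinarith) hSt N0 p0 hp0
  set C0 : ℝ := 2 * M + (V0 + 1) ^ 2 / 2 + M * Ts with hC0
  have hC0' : 0 ≤ C0 := by positivity
  obtain ⟨n, hn⟩ := exists_nat_gt (C0 / (ε / 4 * Ts))
  have hn0 : (0 : ℝ) < n := lt_of_le_of_lt (by positivity) hn
  have hn1 : C0 ≤ ε / 4 * (n * Ts) := by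
    rw [div_lt_iff₀ (by positivity)] at hn
    nlinarith
  refine ⟨n * Ts, η, by positivity, hη, by linarith, ?_⟩
  intro N p hp W hW x v ho s hρ
  have hη1 : η ≤ 1 := by linarith
  have hxc : Continuous x := continuous_iff_continuousAt.2 fun s => (ho.dx s).continuousAt
  have hgI : ∀ a b : ℝ, IntervalIntegrable (fun τ => p.g W (x τ) τ) volume a b :=
    fun a b => (g_cont p W hxc).intervalIntegrable a b
  have hhI : ∀ a b : ℝ, IntervalIntegrable (fun τ => p.h W (x τ) τ) volume a b :=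
    fun a b => (h_cont p W hxc).intervalIntegrable a b
  have inv : ∀ j : ℕ, j ≤ n → -(∫ τ in s..(s + j * Ts), p.h W (x τ) τ) ≤ C0 + (ε / 2 + M * η) * (j * Ts) := by
    intro j
    induction j with
    | zero => intro _; simp; exact hC0'
    | succ j ih =>
      intro hj
      have ihj := ih (by omega)
      have hjn : ((j : ℝ) + 1) ≤ n := by exact_mod_cast hj
      have hj0 : (0 : ℝ) ≤ j := Nat.cast_nonneg j
      have c1 : s ≤ s + j * Ts := by have := mul_nonneg hj0 hTs.le; linarith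
      have c2 : s + (j : ℝ) * Ts + Ts ≤ s + n * Ts := by
        have := mul_le_mul_of_nonneg_right hjn hTs.le
        linarith
      have e0 : s + ((j + 1 : ℕ) : ℝ) * Ts = s + j * Ts + Ts := by push_cast; ring
      have e1 : (∫ τ in s..(s + ((j + 1 : ℕ) : ℝ) * Ts), p.h W (x τ) τ) =
          (∫ τ in s..(s + j * Ts), p.h W (x τ) τ) + ∫ τ in (s + j * Ts)..(s + j * Ts + Ts), p.h W (x τ) τ := by
        rw [e0]
        exact (intervalIntegral.integral_add_adjacent_intervals (hhI _ _) (hhI _ _)).symm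
      have e2 : ((j + 1 : ℕ) : ℝ) * Ts = j * Ts + Ts := by push_cast; ring
      have e3 : (ε / 2 + M * η) * (((j + 1 : ℕ) : ℝ) * Ts) = (ε / 2 + M * η) * (j * Ts) + ε / 2 * Ts + M * η * Ts := by
        rw [e2]; ring
      have hMη : 0 ≤ M * η * Ts := by positivity
      have hεT : 0 ≤ ε / 2 * Ts := by positivity
      have hεj : 0 ≤ ε / 2 * (j * Ts) := by positivity
      rw [e1, e3]
      by_cases hbig : V0 < ‖W.starProjection (v (s + j * Ts))‖
      · -- fast window
        have h1 := hwin N p hp W hW x v ho (s + j * Ts) hbig ?_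
        · have h2 : 2 * η * Ts ≤ ε / 8 * Ts := by
            have := mul_le_mul_of_nonneg_right k4 hTs.le
            linarith
          linarith
        · intro t ht
          have h2 := hρ t ⟨c1.trans ht.1, ht.2.trans c2⟩
          have h3 := hρ (s + j * Ts) ⟨c1, by linarith⟩
          have h4 : (∫ τ in s..t, p.g W (x τ) τ) = (∫ τ in s..(s + j * Ts), p.g W (x τ) τ) +
              ∫ τ in (s + j * Ts)..t, p.g W (x τ) τ :=
            (intervalIntegral.integral_add_adjacent_intervals (hgI _ _) (hgI _ _)).symm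
          have h5 : W.starProjection (v t - v (s + j * Ts)) - ∫ τ in (s + j * Ts)..t, p.g W (x τ) τ =
              (W.starProjection (v t - v s) - ∫ τ in s..t, p.g W (x τ) τ) -
              (W.starProjection (v (s + j * Ts) - v s) - ∫ τ in s..(s + j * Ts), p.g W (x τ) τ) := by
            rw [h4]; simp only [map_sub]; abel
          rw [h5]
          refine (norm_sub_le _ _).trans (by linarith)
      · -- slow window
        have hsm := not_lt.1 hbig
        have h1 := energy p W ho.dx η s (s + j * Ts) (fun x t => hp.gW hη1 hM W x t)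
          (fun x t => hp.uW hη1 hM W x t) c1 (fun t ht => hρ t ⟨ht.1, ht.2.trans (by linarith)⟩)
        have h3 := hρ (s + j * Ts) ⟨c1, by linarith⟩
        have h4 : W.starProjection (v s) + ∫ τ in s..(s + j * Ts), p.g W (x τ) τ =
            W.starProjection (v (s + j * Ts)) -
            (W.starProjection (v (s + j * Ts) - v s) - ∫ τ in s..(s + j * Ts), p.g W (x τ) τ) := by
          simp only [map_sub]; abel
        have h5 : ‖W.starProjection (v s) + ∫ τ in s..(s + j * Ts), p.g W (x τ) τ‖ ≤ V0 + 1 := by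
          rw [h4]; exact (norm_sub_le _ _).trans (by linarith)
        have h6 : ‖W.starProjection (v s) + ∫ τ in s..(s + j * Ts), p.g W (x τ) τ‖ ^ 2 ≤ (V0 + 1) ^ 2 :=
          pow_le_pow_left₀ (norm_nonneg _) h5 2
        have h7 : ‖∫ τ in (s + j * Ts)..(s + j * Ts + Ts), p.h W (x τ) τ‖ ≤ M * Ts :=
          int_le _ M (s + j * Ts) (s + j * Ts + Ts) Ts (by linarith)
            (fun τ => by rw [Real.norm_eq_abs]; exact hp.hW hη1 hM W _ _) (by linarith) (le_refl _)
        rw [Real.norm_eq_abs] at h7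
        have h8 := (abs_le.1 h7).1
        have h9 : M * η * (s + j * Ts - s) = M * η * (j * Ts) := by ring
        rw [h9] at h1
        have h10 : (ε / 2 + M * η) * (j * Ts) = ε / 2 * (j * Ts) + M * η * (j * Ts) := by ring
        rw [h10]
        linarith
  have hfin := inv n (le_refl _)
  have h1 : (ε / 2 + M * η) * (n * Ts) ≤ (3 * ε / 4) * (n * Ts) :=
    mul_le_mul_of_nonneg_right (by linarith) (by positivity)
  linarith

theorem st_all (hM : Bd F hh uu M) (hd : ∀ η : ℝ, 0 < η → ∃ (N : ℕ) (p : TP E (Fin N)), Near F hh uu p η)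
    (r : ℕ) : ∀ ε : ℝ, 0 < ε → St F hh uu r ε := by
  induction r with
  | zero => exact fun ε hε => st_zero hM ε hε
  | succ r ih => exact fun ε hε => st_succ hM hd r ih ε hε

/-- the final estimate: the integral of `hh` along an orbit over one window of length `T` -/
theorem final_window (hM : Bd F hh uu M) (hFc : Continuous fun q : E × ℝ => F q.1 q.2)
    (hhc : Continuous fun q : E × ℝ => hh q.1 q.2)
    (hd : ∀ η : ℝ, 0 < η → ∃ (N : ℕ) (p : TP E (Fin N)), Near F hh uu p η) (ε : ℝ) (hε : 0 < ε) :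
    ∃ T : ℝ, 0 < T ∧ ∀ x v, Orb F x v → ∀ s : ℝ, -(∫ τ in s..(s + T), hh (x τ) τ) ≤ ε * T := by
  obtain ⟨T, η, hT, hη, hη1, hSt⟩ := st_all hM hd (Module.finrank ℝ E) (ε / 2) (by linarith)
  refine ⟨T, hT, ?_⟩
  obtain ⟨N, p, hp⟩ := hd (min η (min (η / T) (ε / 2))) (by positivity)
  intro x v ho s
  have hxc : Continuous x := continuous_iff_continuousAt.2 fun s => (ho.dx s).continuousAt
  have hFx : Continuous fun τ => F (x τ) τ := hFc.comp (hxc.prodMk continuous_id)
  have hhx : Continuous fun τ => hh (x τ) τ := hhc.comp (hxc.prodMk continuous_id)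
  have h1 := hSt N p (hp.mono (min_le_left _ _)) ⊤ (by rw [finrank_top]) x v ho s ?_
  · have h2 : ‖∫ τ in s..(s + T), (p.h ⊤ (x τ) τ - hh (x τ) τ)‖ ≤ ε / 2 * T := by
      refine int_le _ (ε / 2) s (s + T) T (by linarith) (fun τ => ?_) (by linarith) (le_refl _)
      rw [Real.norm_eq_abs]
      exact (hp.h _ _).trans ((min_le_right _ _).trans (min_le_right _ _))
    rw [intervalIntegral.integral_sub ((h_cont p ⊤ hxc).intervalIntegrable _ _)
      (hhx.intervalIntegrable _ _), Real.norm_eq_abs] at h2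
    have h3 := abs_le.1 h2
    linarith [h3.1, h3.2]
  · intro t ht
    have h2 : v t - v s = ∫ τ in s..t, F (x τ) τ :=
      (intervalIntegral.integral_eq_sub_of_hasDerivAt (fun τ _ => ho.dv τ) (hFx.intervalIntegrable _ _)).symm
    have h3 : (⊤ : Submodule ℝ E).starProjection (v t - v s) = v t - v s :=
      Submodule.starProjection_eq_self_iff.2 Submodule.mem_top
    rw [h3, h2, ← intervalIntegral.integral_sub (hFx.intervalIntegrable _ _)
      ((g_cont p ⊤ hxc).intervalIntegrable _ _)]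
    have h4 : ‖∫ τ in s..t, (F (x τ) τ - p.g ⊤ (x τ) τ)‖ ≤ η / T * T := by
      refine int_le _ (η / T) s t T (by positivity) (fun τ => ?_) ht.1 ht.2
      rw [norm_sub_rev]
      exact (hp.g _ _).trans ((min_le_right _ _).trans (min_le_left _ _))
    refine h4.trans (le_of_eq ?_)
    field_simp

end Pool.Agent.U788.ES
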