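import Pool.Agent.U788.ES.Def
import Pool.Agent.U788.ES.Ind
import Pool.Agent.N980.TL.DENS

/-!
# ES: potentials on flat tori, the growth of the velocity
-/

set_option autoImplicit false

open Set Filter Topology MeasureTheory
open scoped RealInnerProductSpace

noncomputable section

namespace Pool.Agent.U788.ES

open Pool.Agent.N980.TL (Z Trig)
open Pool.Agent.N980.TL

theorem dens1 {n : ℕ} (f : Z n → ℝ) (hf : ContDiff ℝ 1 f) (hP : Dens.Per f) (ε : ℝ) (hε : 0 < ε) :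
    ∃ (N : ℕ) (D : Trig n N) (R : Z n → (Z n →L[ℝ] ℝ)), (∀ q : Z n, |f q - D.val q.1 q.2| ≤ ε) ∧
      (∀ q : Z n, HasFDerivAt (fun q : Z n => f q - D.val q.1 q.2) (R q) q) ∧ ∀ q : Z n, ‖R q‖ ≤ ε := by
  have hc0 : Continuous f := hf.continuous
  have hc1 : Continuous (fderiv ℝ f) := hf.continuous_fderiv (by norm_num)
  have hP1 := Dens.per_fderiv hP
  obtain ⟨m, h0, h1⟩ := ((Dens.approx hP hc0 ε hε).and (Dens.approx hP1 hc1 ε hε)).exists
  obtain ⟨N, D, hD⟩ := Dens.cv_TT m hP hc0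
  have hfun : (fun q : Z n => f q - D.val q.1 q.2) = fun q => f q - Dens.cv m f q := by
    funext q; rw [hD]
  have hd1 : ∀ q, HasFDerivAt (Dens.cv m f) (Dens.cv m (fderiv ℝ f) q) q :=
    fun q => Dens.cv_fderiv m hP hf q
  refine ⟨N, D, fun q => fderiv ℝ f q - Dens.cv m (fderiv ℝ f) q, fun q => ?_, fun q => ?_, fun q => ?_⟩
  · rw [← hD, ← Real.norm_eq_abs]; exact h0 q
  · rw [hfun]; exact ((hf.differentiable (by norm_num)) q).hasFDerivAt.sub (hd1 q)
  · exact h1 q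

variable {E : Type} [NormedAddCommGroup E] [InnerProductSpace ℝ E] [FiniteDimensional ℝ E]

/-- the gradient in the space variable -/
def Fo (f : E × ℝ → ℝ) (x : E) (t : ℝ) : E := gradient (fun y => f (y, t)) x

/-- the time derivative -/
def Ho (f : E × ℝ → ℝ) (x : E) (t : ℝ) : ℝ := fderiv ℝ f (x, t) (0, 1)

theorem Fo_eq {f : E × ℝ → ℝ} (hf : ContDiff ℝ 1 f) (x : E) (t : ℝ) :
    Fo f x t = (InnerProductSpace.toDual ℝ E).symm ((fderiv ℝ f (x, t)).comp (ContinuousLinearMap.inl ℝ E ℝ)) := by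
  have h1 : HasFDerivAt f (fderiv ℝ f (x, t)) (x, t) := (hf.differentiable (by norm_num) _).hasFDerivAt
  have h2 : HasFDerivAt (fun y : E => (y, t)) (ContinuousLinearMap.inl ℝ E ℝ) x := hasFDerivAt_prodMk_left x t
  have h3 := (h1.comp x h2).fderiv
  have h4 : (f ∘ fun y : E => (y, t)) = fun y => f (y, t) := rfl
  rw [h4] at h3
  rw [Fo, gradient, h3]

theorem Fo_inner {f : E × ℝ → ℝ} (hf : ContDiff ℝ 1 f) (x : E) (t : ℝ) (w : E) :
    ⟪Fo f x t, w⟫ = fderiv ℝ f (x, t) (w, 0) := by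
  rw [Fo_eq hf, InnerProductSpace.toDual_symm_apply]
  simp

theorem Fo_cont {f : E × ℝ → ℝ} (hf : ContDiff ℝ 1 f) : Continuous fun q : E × ℝ => Fo f q.1 q.2 := by
  have hc1 : Continuous (fderiv ℝ f) := hf.continuous_fderiv (by norm_num)
  have h : (fun q : E × ℝ => Fo f q.1 q.2) = fun q =>
      (InnerProductSpace.toDual ℝ E).symm ((fderiv ℝ f q).comp (ContinuousLinearMap.inl ℝ E ℝ)) := by
    funext q; exact Fo_eq hf q.1 q.2
  rw [h]
  exact (InnerProductSpace.toDual ℝ E).symm.continuous.comp (hc1.clm_comp continuous_const)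

theorem Ho_cont {f : E × ℝ → ℝ} (hf : ContDiff ℝ 1 f) : Continuous fun q : E × ℝ => Ho f q.1 q.2 := by
  have hc1 : Continuous (fderiv ℝ f) := hf.continuous_fderiv (by norm_num)
  exact hc1.clm_apply continuous_const

theorem near_of {n : ℕ} (b : Module.Basis (Fin n) ℝ E) (f : E × ℝ → ℝ) (hf : Pot b f) (η : ℝ) (hη : 0 < η) :
    ∃ (N : ℕ) (p : TP E (Fin N)), Near (Fo f) (Ho f) (fun x t => f (x, t)) p η := by
  set e : E ≃L[ℝ] (Fin n → ℝ) := b.equivFunL with he
  set L : E × ℝ →L[ℝ] Z n := (e : E →L[ℝ] (Fin n → ℝ)).prodMap (ContinuousLinearMap.id ℝ ℝ) with hL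
  set f' : Z n → ℝ := fun q => f (e.symm q.1, q.2) with hf'
  have hf's : ContDiff ℝ 1 f' := by
    refine hf.smooth.comp ?_
    exact (e.symm.contDiff.comp contDiff_fst).prodMk contDiff_snd
  have hper : Dens.Per f' := by
    intro x t k l
    simp only [hf']
    have h1 : e.symm (fun i => x i + k i) = e.symm x + e.symm (fun i => (k i : ℝ)) := by
      rw [← map_add]; rfl
    have h2 : e.symm (fun i => (k i : ℝ)) ∈ Submodule.span ℤ (Set.range b) := by
      have h3 : e.symm (fun i => (k i : ℝ)) = ∑ i, (k i) • b i := by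
        have h4 : e.symm (fun i => (k i : ℝ)) = b.equivFun.symm (fun i => (k i : ℝ)) := rfl
        rw [h4, Module.Basis.equivFun_symm_apply]
        exact Finset.sum_congr rfl fun i _ => Int.cast_smul_eq_zsmul ℝ (k i) (b i)
      rw [h3]
      exact Submodule.sum_mem _ fun i _ => Submodule.smul_mem _ _ (Submodule.subset_span ⟨i, rfl⟩)
    rw [h1, hf.perx _ h2, hf.pert]
  obtain ⟨N, D, R, hR0, hR1, hR2⟩ := dens1 f' hf's hper (η / (‖L‖ + 1)) (by positivity)
  have hsm : η / (‖L‖ + 1) ≤ η := div_le_self hη.le (by linarith [norm_nonneg L])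
  have hsm2 : η / (‖L‖ + 1) * ‖L‖ ≤ η := by
    rw [div_mul_eq_mul_div, div_le_iff₀ (by positivity)]
    nlinarith [norm_nonneg L]
  set p : TP E (Fin N) :=
    { K := fun μ => (InnerProductSpace.toDual ℝ E).symm
        ((2 * Real.pi) • ∑ i, (D.k μ i : ℝ) • ((ContinuousLinearMap.proj i).comp (e : E →L[ℝ] (Fin n → ℝ))))
      m := fun μ => 2 * Real.pi * D.m μ
      c := D.c
      ph := D.ph } with hp
  have hphi : ∀ μ x t, p.phi μ x t = D.phase μ (e x) t := by
    intro μ x t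
    simp only [TP.phi, hp, Trig.phase, InnerProductSpace.toDual_symm_apply]
    simp
    ring
  have hu : ∀ x t, p.u ⊤ x t = D.val (e x) t := by
    intro x t
    rw [TP.u, TP.sel_top, Trig.val]
    refine Finset.sum_congr rfl fun μ _ => ?_
    rw [hphi, smul_eq_mul, mul_comm]
  have hfe : ∀ q : E × ℝ, f q - p.u ⊤ q.1 q.2 = f' (L q) - D.val (L q).1 (L q).2 := by
    intro q
    rw [hu]
    simp [hf', hL]
  have hPd : ∀ q : E × ℝ, HasFDerivAt (fun q : E × ℝ => p.u ⊤ q.1 q.2)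
      (fderiv ℝ f q - (R (L q)).comp L) q := by
    intro q
    have h1 : HasFDerivAt f (fderiv ℝ f q) q := (hf.smooth.differentiable (by norm_num) _).hasFDerivAt
    have h2 : HasFDerivAt (fun q : E × ℝ => f' (L q) - D.val (L q).1 (L q).2) ((R (L q)).comp L) q :=
      (hR1 (L q)).comp q L.hasFDerivAt
    have h3 := h1.sub h2
    refine h3.congr_of_eventuallyEq (Filter.Eventually.of_forall fun q => ?_)
    have := hfe q
    show p.u ⊤ q.1 q.2 = f q - (f' (L q) - D.val (L q).1 (L q).2)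
    linarith
  have hRn : ∀ q : E × ℝ, ∀ w : E × ℝ, |R (L q) (L w)| ≤ η * ‖w‖ := by
    intro q w
    rw [← Real.norm_eq_abs]
    calc ‖R (L q) (L w)‖ ≤ ‖R (L q)‖ * ‖L w‖ := (R (L q)).le_opNorm _
      _ ≤ η / (‖L‖ + 1) * (‖L‖ * ‖w‖) :=
        mul_le_mul (hR2 _) (L.le_opNorm _) (norm_nonneg _) (by positivity)
      _ = η / (‖L‖ + 1) * ‖L‖ * ‖w‖ := by ring
      _ ≤ η * ‖w‖ := mul_le_mul_of_nonneg_right hsm2 (norm_nonneg _)
  have hline : ∀ x t (w : E), ⟪p.g ⊤ x t, w⟫ + p.h ⊤ x t =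
      fderiv ℝ f (x, t) (w, 1) - R (L (x, t)) (L (w, 1)) := by
    intro x t w
    have hX : ∀ s : ℝ, HasDerivAt (fun s : ℝ => x + (s - t) • w) ((fun _ => w) s) s := by
      intro s
      simpa using (((hasDerivAt_id s).sub_const t).smul_const w).const_add x
    have h1 := u_deriv p ⊤ hX t
    simp only [sub_self, zero_smul, add_zero] at h1
    have h2 : HasDerivAt (fun s : ℝ => ((x + (s - t) • w, s) : E × ℝ)) (w, 1) t :=
      (hX t).prodMk (hasDerivAt_id t)
    have h3 : HasFDerivAt (fun q : E × ℝ => p.u ⊤ q.1 q.2)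
      (fderiv ℝ f (x, t) - (R (L (x, t))).comp L) ((fun s : ℝ => ((x + (s - t) • w, s) : E × ℝ)) t) := by
      simpa using hPd (x, t)
    have h4 := HasFDerivAt.comp_hasDerivAt (f := fun s : ℝ => ((x + (s - t) • w, s) : E × ℝ)) t h3 h2
    have h5 := h1.unique h4
    rw [h5]
    simp
  have hh0 : ∀ x t, p.h ⊤ x t = Ho f x t - R (L (x, t)) (L (0, 1)) := by
    intro x t
    have := hline x t 0
    rw [inner_zero_right, zero_add] at this
    exact this
  have hg0 : ∀ x t w, ⟪p.g ⊤ x t - Fo f x t, w⟫ = -R (L (x, t)) (L (w, 0)) := by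
    intro x t w
    have h1 := hline x t w
    have h2 := hh0 x t
    have h3 : ((w, 1) : E × ℝ) = (w, 0) + (0, 1) := by simp
    rw [h3, map_add, map_add, map_add] at h1
    rw [inner_sub_left, Fo_inner hf.smooth]
    unfold Ho at h2
    linarith
  refine ⟨N, p, ⟨fun x t => ?_, fun x t => ?_, fun x t => ?_⟩⟩
  · set w : E := p.g ⊤ x t - Fo f x t with hw
    have h1 : ‖w‖ * ‖w‖ ≤ η * ‖w‖ := by
      have h2 := hg0 x t w
      rw [← hw, real_inner_self_eq_norm_mul_norm] at h2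
      have h3 := hRn (x, t) (w, 0)
      have h4 : ‖((w, 0) : E × ℝ)‖ = ‖w‖ := by simp [Prod.norm_def]
      rw [h4] at h3
      rw [h2]
      exact (neg_le_abs _).trans h3
    by_cases hw0 : ‖w‖ = 0
    · rw [hw0]; exact hη.le
    · exact le_of_mul_le_mul_right h1 (lt_of_le_of_ne (norm_nonneg _) (Ne.symm hw0))
  · rw [hh0]
    have h3 := hRn (x, t) (0, 1)
    have h4 : ‖((0, 1) : E × ℝ)‖ = 1 := by simp [Prod.norm_def]
    rw [h4, mul_one] at h3
    rw [sub_sub_cancel_left, abs_neg]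
    exact h3
  · have h1 := hR0 (L (x, t))
    rw [← hfe (x, t)] at h1
    rw [abs_sub_comm]
    exact h1.trans hsm

theorem bd_of {n : ℕ} (b : Module.Basis (Fin n) ℝ E) (f : E × ℝ → ℝ) (hf : Pot b f) :
    ∃ M, Bd (Fo f) (Ho f) (fun x t => f (x, t)) M := by
  obtain ⟨N, p, hp⟩ := near_of b f hf 1 one_pos
  have hs : ∀ y : ℝ, |Real.sin y| ≤ 1 := Real.abs_sin_le_one
  have hc : ∀ y : ℝ, |Real.cos y| ≤ 1 := Real.abs_cos_le_one
  have b1 : ∀ x t, ‖p.g ⊤ x t‖ ≤ ∑ μ, ‖-p.c μ • p.K μ‖ := by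
    intro x t
    rw [TP.g, TP.sel_top]
    refine (norm_sum_le _ _).trans (Finset.sum_le_sum fun μ _ => ?_)
    rw [norm_smul, Real.norm_eq_abs]
    exact mul_le_of_le_one_left (norm_nonneg _) (hs _)
  have b2 : ∀ x t, |p.h ⊤ x t| ≤ ∑ μ, |-p.c μ * p.m μ| := by
    intro x t
    rw [TP.h, TP.sel_top]
    refine (Finset.abs_sum_le_sum_abs _ _).trans (Finset.sum_le_sum fun μ _ => ?_)
    rw [smul_eq_mul, abs_mul]
    exact mul_le_of_le_one_left (abs_nonneg _) (hs _)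
  have b3 : ∀ x t, |p.u ⊤ x t| ≤ ∑ μ, |p.c μ| := by
    intro x t
    rw [TP.u, TP.sel_top]
    refine (Finset.abs_sum_le_sum_abs _ _).trans (Finset.sum_le_sum fun μ _ => ?_)
    rw [smul_eq_mul, abs_mul]
    exact mul_le_of_le_one_left (abs_nonneg _) (hc _)
  have c1 : 0 ≤ ∑ μ, ‖-p.c μ • p.K μ‖ := Finset.sum_nonneg fun μ _ => norm_nonneg _
  have c2 : 0 ≤ ∑ μ, |-p.c μ * p.m μ| := Finset.sum_nonneg fun μ _ => abs_nonneg _
  have c3 : 0 ≤ ∑ μ, |p.c μ| := Finset.sum_nonneg fun μ _ => abs_nonneg _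
  refine ⟨2 + (∑ μ, ‖-p.c μ • p.K μ‖) + (∑ μ, |-p.c μ * p.m μ|) + ∑ μ, |p.c μ|, ⟨by linarith, ?_, ?_, ?_⟩⟩
  · intro x t
    have h1 := hp.g x t
    have h2 : ‖Fo f x t‖ ≤ ‖p.g ⊤ x t‖ + ‖p.g ⊤ x t - Fo f x t‖ := by
      simpa using norm_sub_le (p.g ⊤ x t) (p.g ⊤ x t - Fo f x t)
    have := b1 x t
    linarith
  · intro x t
    have h1 := hp.h x t
    have h2 : |Ho f x t| ≤ |p.h ⊤ x t| + |p.h ⊤ x t - Ho f x t| := by
      simpa using abs_sub (p.h ⊤ x t) (p.h ⊤ x t - Ho f x t)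
    have := b2 x t
    linarith
  · intro x t
    have h1 : |p.u ⊤ x t - f (x, t)| ≤ 1 := hp.u x t
    have h2 : |f (x, t)| ≤ |p.u ⊤ x t| + |p.u ⊤ x t - f (x, t)| := by
      simpa using abs_sub (p.u ⊤ x t) (p.u ⊤ x t - f (x, t))
    have := b3 x t
    linarith

/-- the energy along an orbit -/
theorem energy_id {f : E × ℝ → ℝ} (hf : ContDiff ℝ 1 f) {x v : ℝ → E} (ho : IsOrbit f x v) (s t : ℝ) :
    (‖v t‖ ^ 2 / 2 - f (x t, t)) - (‖v s‖ ^ 2 / 2 - f (x s, s)) = -∫ τ in s..t, Ho f (x τ) τ := by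
  have hxc : Continuous x := continuous_iff_continuousAt.2 fun s => (ho.dx s).continuousAt
  have hd : ∀ t, HasDerivAt (fun t => ‖v t‖ ^ 2 / 2 - f (x t, t)) (-Ho f (x t) t) t := by
    intro t
    have h1 := ((ho.dv t).norm_sq).div_const 2
    have h2 : HasDerivAt (fun t : ℝ => ((x t, t) : E × ℝ)) (v t, 1) t := (ho.dx t).prodMk (hasDerivAt_id t)
    have h3 : HasFDerivAt f (fderiv ℝ f (x t, t)) ((fun t : ℝ => ((x t, t) : E × ℝ)) t) :=
      (hf.differentiable (by norm_num) _).hasFDerivAt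
    have h4 := HasFDerivAt.comp_hasDerivAt (f := fun t : ℝ => ((x t, t) : E × ℝ)) t h3 h2
    refine (h1.sub h4).congr_deriv ?_
    have h5 := Fo_inner hf (x t) t (v t)
    have h6 : ((v t, 1) : E × ℝ) = (v t, 0) + (0, 1) := by simp
    have h7 : Fo f (x t) t = gradient (fun y => f (y, t)) (x t) := rfl
    rw [h6, map_add, ← h5, ← h7, real_inner_comm (v t), Ho]
    ring
  have hc : Continuous fun τ => -Ho f (x τ) τ := ((Ho_cont hf).comp (hxc.prodMk continuous_id)).neg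
  have := intervalIntegral.integral_eq_sub_of_hasDerivAt (fun τ _ => hd τ) (hc.intervalIntegrable s t)
  rw [← this, intervalIntegral.integral_neg]

/-- upper bound of the growth -/
theorem growth {n : ℕ} (b : Module.Basis (Fin n) ℝ E) (f : E × ℝ → ℝ) (hf : Pot b f) (ε : ℝ) (hε : 0 < ε) :
    ∃ T : ℝ, 0 < T ∧ ∀ x v, IsOrbit f x v → ∀ s t, s + T ≤ t → ‖v t‖ ^ 2 ≤ ‖v s‖ ^ 2 + ε * (t - s) := by
  obtain ⟨M, hM⟩ := bd_of b f hf
  have hM1 := hM.M1
  obtain ⟨T, hT, hw⟩ := final_window hM (Fo_cont hf.smooth) (Ho_cont hf.smooth) (near_of b f hf) (ε / 4) (by linarith)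
  refine ⟨T + (2 * M * T + 4 * M) / (ε / 2), by positivity, ?_⟩
  intro x v ho s t hst
  have hq : 0 ≤ (2 * M * T + 4 * M) / (ε / 2) := by positivity
  have hxc : Continuous x := continuous_iff_continuousAt.2 fun s => (ho.dx s).continuousAt
  have hI : ∀ a c : ℝ, IntervalIntegrable (fun τ => Ho f (x τ) τ) volume a c := fun a c =>
    ((Ho_cont hf.smooth).comp (hxc.prodMk continuous_id)).intervalIntegrable a c
  have hO : Orb (Fo f) x v := ⟨ho.dx, ho.dv⟩
  have hk : ∀ k : ℕ, -(∫ τ in s..(s + k * T), Ho f (x τ) τ) ≤ ε / 4 * (k * T) := by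
    intro k
    induction k with
    | zero => simp
    | succ k ih =>
      have h1 := hw x v hO (s + k * T)
      have e0 : s + ((k + 1 : ℕ) : ℝ) * T = s + k * T + T := by push_cast; ring
      rw [e0, ← intervalIntegral.integral_add_adjacent_intervals (hI s (s + k * T)) (hI _ _)]
      have e2 : ε / 4 * (((k + 1 : ℕ) : ℝ) * T) = ε / 4 * (k * T) + ε / 4 * T := by push_cast; ring
      rw [e2]
      linarith
  set k : ℕ := ⌊(t - s) / T⌋₊ with hkd
  have h0 : 0 ≤ (t - s) / T := div_nonneg (by linarith) hT.le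
  have k1 : (k : ℝ) * T ≤ t - s := by
    have := Nat.floor_le h0
    rwa [le_div_iff₀ hT] at this
  have k2 : t - s < k * T + T := by
    have := Nat.lt_floor_add_one ((t - s) / T)
    rw [div_lt_iff₀ hT] at this
    linarith
  have h1 := hk k
  have h2 : ‖∫ τ in (s + k * T)..t, Ho f (x τ) τ‖ ≤ M * T :=
    int_le _ M (s + k * T) t T (by linarith) (fun τ => by
      have := hM.h (x τ) τ
      rw [Real.norm_eq_abs]; linarith) (by linarith) (by linarith)
  rw [Real.norm_eq_abs] at h2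
  have h3 := (abs_le.1 h2).1
  have h4 := energy_id hf.smooth ho s t
  rw [← intervalIntegral.integral_add_adjacent_intervals (hI s (s + k * T)) (hI _ _)] at h4
  have h5 : |f (x t, t)| + 1 ≤ M := hM.u (x t) t
  have h6 : |f (x s, s)| + 1 ≤ M := hM.u (x s) s
  have h7 := abs_le.1 (by linarith : |f (x t, t)| ≤ M)
  have h8 := abs_le.1 (by linarith : |f (x s, s)| ≤ M)
  have h9 : ε / 4 * (k * T) ≤ ε / 4 * (t - s) := mul_le_mul_of_nonneg_left k1 (by linarith)
  have h10 : 2 * M * T + 4 * M ≤ ε / 2 * (t - s) := by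
    have : (2 * M * T + 4 * M) / (ε / 2) ≤ t - s := by linarith
    rw [div_le_iff₀ (by linarith)] at this
    linarith
  linarith [h7.1, h7.2, h8.1, h8.2]

end Pool.Agent.U788.ES
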