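import Mathlib

/-!
# ES: trigonometric polynomials and their resonant parts; the contraction property
-/

set_option autoImplicit false

open Set Filter Topology MeasureTheory
open scoped RealInnerProductSpace

noncomputable section

namespace Pool.Agent.U788.ES

/-- a trigonometric polynomial on `E × ℝ` -/
structure TP (E : Type) (ι : Type) where
  K : ι → E
  m : ι → ℝ
  c : ι → ℝ
  ph : ι → ℝ

variable {E : Type} [NormedAddCommGroup E] [InnerProductSpace ℝ E] [FiniteDimensional ℝ E]
variable {ι : Type} [Fintype ι]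

/-- the phase -/
def TP.phi (p : TP E ι) (μ : ι) (x : E) (t : ℝ) : ℝ := ⟪p.K μ, x⟫ + p.m μ * t + p.ph μ

open Classical in
/-- the modes in the subspace `W` -/
def TP.sel (p : TP E ι) (W : Submodule ℝ E) : Finset ι := Finset.univ.filter (fun μ => p.K μ ∈ W)

/-- the gradient of the part with modes in `W` -/
def TP.g (p : TP E ι) (W : Submodule ℝ E) (x : E) (t : ℝ) : E :=
  ∑ μ ∈ p.sel W, Real.sin (p.phi μ x t) • (-p.c μ • p.K μ)

/-- the time derivative of the part with modes in `W` -/
def TP.h (p : TP E ι) (W : Submodule ℝ E) (x : E) (t : ℝ) : ℝ :=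
  ∑ μ ∈ p.sel W, Real.sin (p.phi μ x t) • (-p.c μ * p.m μ)

/-- the part with modes in `W` -/
def TP.u (p : TP E ι) (W : Submodule ℝ E) (x : E) (t : ℝ) : ℝ :=
  ∑ μ ∈ p.sel W, Real.cos (p.phi μ x t) • p.c μ

omit [FiniteDimensional ℝ E] in
theorem TP.sel_top (p : TP E ι) : p.sel ⊤ = Finset.univ := by
  simp [TP.sel]

theorem exists_dir (K : ι → E) (W : Submodule ℝ E) :
    ∃ y : E, (∀ w ∈ W, ⟪w, y⟫ = 0) ∧ ∀ j, K j ∉ W → ⟪K j, y⟫ ≠ 0 := by
  classical
  have key : ∀ s : Finset ι, ∃ y : E, (∀ w ∈ W, ⟪w, y⟫ = 0) ∧ ∀ j ∈ s, K j ∉ W → ⟪K j, y⟫ ≠ 0 := by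
    intro s
    induction s using Finset.induction_on with
    | empty => exact ⟨0, by simp, by simp⟩
    | insert j0 s hj0 ih =>
      obtain ⟨y, hy, hys⟩ := ih
      by_cases hK : K j0 ∈ W
      · refine ⟨y, hy, fun j hj hjW => ?_⟩
        rcases Finset.mem_insert.1 hj with rfl | hj
        · exact absurd hK hjW
        · exact hys j hj hjW
      set z : E := K j0 - W.starProjection (K j0) with hz
      have hzW : ∀ w ∈ W, ⟪w, z⟫ = 0 := by
        intro w hw
        have h1 := W.sub_starProjection_mem_orthogonal (K j0)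
        exact (Submodule.mem_orthogonal W _).1 h1 w hw
      have hzn : ⟪K j0, z⟫ ≠ 0 := by
        have h1 : ⟪K j0, z⟫ = ⟪z, z⟫ := by
          conv_lhs => rw [show K j0 = z + W.starProjection (K j0) by rw [hz]; abel]
          rw [inner_add_left, hzW _ (W.starProjection_apply_mem (K j0)), add_zero]
        rw [h1]
        intro h0
        rw [inner_self_eq_zero] at h0
        apply hK
        have : K j0 = W.starProjection (K j0) := by
          rw [← sub_eq_zero, ← hz, h0]
        rw [this]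
        exact W.starProjection_apply_mem (K j0)
      obtain ⟨r, hr⟩ := Infinite.exists_notMem_finset
        (insert (-⟪K j0, y⟫ / ⟪K j0, z⟫) (s.image fun j => -⟪K j, y⟫ / ⟪K j, z⟫))
      refine ⟨y + r • z, fun w hw => ?_, fun j hj hjW => ?_⟩
      · rw [inner_add_right, inner_smul_right, hy w hw, hzW w hw]; simp
      · rw [inner_add_right, inner_smul_right]
        intro h0
        have hne : ⟪K j, z⟫ ≠ 0 ∨ j ∈ s := by
          rcases Finset.mem_insert.1 hj with rfl | hj
          · exact Or.inl hzn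
          · exact Or.inr hj
        by_cases hjz : ⟪K j, z⟫ = 0
        · rcases hne with h | h
          · exact h hjz
          · exact hys j h hjW (by rw [hjz] at h0; simpa using h0)
        · apply hr
          have h2 : r = -⟪K j, y⟫ / ⟪K j, z⟫ := by
            field_simp
            linarith
          rcases Finset.mem_insert.1 hj with rfl | hj
          · rw [h2]; exact Finset.mem_insert_self _ _
          · rw [h2]; exact Finset.mem_insert_of_mem (Finset.mem_image_of_mem _ hj)
  obtain ⟨y, hy, hy'⟩ := key Finset.univ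
  exact ⟨y, hy, fun j hj => hy' j (Finset.mem_univ j) hj⟩

open Classical in
theorem contr {V : Type} [NormedAddCommGroup V] [NormedSpace ℝ V] (K : ι → E) (θ : ι → ℝ)
    (a : ι → V) (B : ℝ) (hB : ∀ x : E, ‖∑ j, Real.sin (⟪K j, x⟫ + θ j) • a j‖ ≤ B)
    (W : Submodule ℝ E) (x : E) :
    ‖∑ j ∈ Finset.univ.filter (fun j => K j ∈ W), Real.sin (⟪K j, x⟫ + θ j) • a j‖ ≤ B := by
  obtain ⟨y, hy, hy'⟩ := exists_dir K W
  set w : ι → ℝ := fun j => ⟪K j, y⟫ with hw
  set ψ : ι → ℝ → ℝ := fun j s => if K j ∈ W then s * Real.sin (⟪K j, x⟫ + θ j) else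
    -Real.cos (⟪K j, x⟫ + θ j + s * w j) / w j with hψ
  set C : ℝ := ∑ j, 2 / |w j| * ‖a j‖ with hC
  set A : V := ∑ j ∈ Finset.univ.filter (fun j => K j ∈ W), Real.sin (⟪K j, x⟫ + θ j) • a j with hA
  have hC0 : 0 ≤ C := Finset.sum_nonneg fun j _ => by positivity
  have hd : ∀ j s, HasDerivAt (ψ j) (Real.sin (⟪K j, x + s • y⟫ + θ j)) s := by
    intro j s
    by_cases hj : K j ∈ W
    · have h1 : ⟪K j, x + s • y⟫ = ⟪K j, x⟫ := by
        rw [inner_add_right, inner_smul_right, hy _ hj]; simp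
      have h2 : ψ j = fun s => s * Real.sin (⟪K j, x⟫ + θ j) := by
        funext s; simp only [hψ]; rw [if_pos hj]
      rw [h2, h1]
      simpa using (hasDerivAt_id s).mul_const (Real.sin (⟪K j, x⟫ + θ j))
    · have h1 : ⟪K j, x + s • y⟫ = ⟪K j, x⟫ + s * w j := by
        rw [inner_add_right, inner_smul_right]
      have h2 : ψ j = fun s => -Real.cos (⟪K j, x⟫ + θ j + s * w j) / w j := by
        funext s; simp only [hψ]; rw [if_neg hj]
      have hwj : w j ≠ 0 := hy' j hj
      rw [h2, h1]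
      have h3 : HasDerivAt (fun s : ℝ => ⟪K j, x⟫ + θ j + s * w j) (w j) s := by
        simpa using ((hasDerivAt_id s).mul_const (w j)).const_add (⟪K j, x⟫ + θ j)
      have h4 : HasDerivAt (fun s : ℝ => -Real.cos (⟪K j, x⟫ + θ j + s * w j) / w j)
          (-(-Real.sin (⟪K j, x⟫ + θ j + s * w j) * w j) / w j) s := (h3.cos.neg).div_const (w j)
      refine h4.congr_deriv ?_
      rw [show ⟪K j, x⟫ + s * w j + θ j = ⟪K j, x⟫ + θ j + s * w j by ring]
      field_simp
  have hΦ : ∀ s, HasDerivAt (fun s => ∑ j, ψ j s • a j) (∑ j, Real.sin (⟪K j, x + s • y⟫ + θ j) • a j) s := by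
    intro s
    have := HasDerivAt.sum (u := Finset.univ) (fun j (_ : j ∈ Finset.univ) => (hd j s).smul_const (a j))
    convert this using 1
    funext s; simp
  have key : ∀ R : ℝ, 0 ≤ R → R * ‖A‖ ≤ B * R + C := by
    intro R hR
    have h1 : ‖(∑ j, ψ j R • a j) - ∑ j, ψ j 0 • a j‖ ≤ B * ‖R - 0‖ :=
      Convex.norm_image_sub_le_of_norm_hasDerivWithin_le (f := fun s => ∑ j, ψ j s • a j)
        (f' := fun s => ∑ j, Real.sin (⟪K j, x + s • y⟫ + θ j) • a j) (s := Set.univ)
        (fun s _ => (hΦ s).hasDerivWithinAt) (fun s _ => hB _) convex_univ (mem_univ _) (mem_univ _)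
    have h2 : R • A = ((∑ j, ψ j R • a j) - ∑ j, ψ j 0 • a j) -
        ∑ j, (ψ j R - ψ j 0 - R * (if K j ∈ W then Real.sin (⟪K j, x⟫ + θ j) else 0)) • a j := by
      rw [hA, Finset.sum_filter, Finset.smul_sum, ← Finset.sum_sub_distrib, ← Finset.sum_sub_distrib]
      refine Finset.sum_congr rfl fun j _ => ?_
      split_ifs <;> module
    have h3 : ‖∑ j, (ψ j R - ψ j 0 - R * (if K j ∈ W then Real.sin (⟪K j, x⟫ + θ j) else 0)) • a j‖ ≤ C := by
      refine (norm_sum_le _ _).trans (Finset.sum_le_sum fun j _ => ?_)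
      rw [norm_smul]
      refine mul_le_mul_of_nonneg_right ?_ (norm_nonneg _)
      by_cases hj : K j ∈ W
      · simp only [hψ, if_pos hj]
        rw [show R * Real.sin (⟪K j, x⟫ + θ j) - 0 * Real.sin (⟪K j, x⟫ + θ j) -
          R * Real.sin (⟪K j, x⟫ + θ j) = 0 by ring]
        simp only [norm_zero]; positivity
      · simp only [hψ, if_neg hj]
        rw [mul_zero, sub_zero, ← sub_div, norm_div, Real.norm_eq_abs, Real.norm_eq_abs]
        refine div_le_div_of_nonneg_right ?_ (abs_nonneg _)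
        have e1 := Real.neg_one_le_cos (⟪K j, x⟫ + θ j + R * w j)
        have e2 := Real.cos_le_one (⟪K j, x⟫ + θ j + R * w j)
        have e3 := Real.neg_one_le_cos (⟪K j, x⟫ + θ j + 0 * w j)
        have e4 := Real.cos_le_one (⟪K j, x⟫ + θ j + 0 * w j)
        rw [abs_le]; constructor <;> linarith
    have h4 : R * ‖A‖ = ‖R • A‖ := by rw [norm_smul, Real.norm_eq_abs, abs_of_nonneg hR]
    rw [h4, h2]
    refine (norm_sub_le _ _).trans ?_
    rw [sub_zero, Real.norm_eq_abs, abs_of_nonneg hR] at h1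
    linarith
  by_contra hcon
  push Not at hcon
  have hpos : 0 < ‖A‖ - B := by linarith
  have h5 := key (C / (‖A‖ - B) + 1) (by positivity)
  have h6 : (C / (‖A‖ - B) + 1) * (‖A‖ - B) = C + (‖A‖ - B) := by
    field_simp
  nlinarith

end Pool.Agent.U788.ES
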