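import Mathlib

/-!
# ES: time-periodic potentials on flat tori and the orbits of the Lagrangian `|v|²/2 + f(x,t)`
-/

set_option autoImplicit false

noncomputable section

namespace Pool.Agent.U788.ES

variable {E : Type} [NormedAddCommGroup E] [InnerProductSpace ℝ E] [FiniteDimensional ℝ E]

/-- potentials of class `C¹` on the product of the flat torus `E / Λ` with `ℝ / ℤ`, where `Λ` is the
lattice spanned by the basis `b` of `E` -/
structure Pot {n : ℕ} (b : Module.Basis (Fin n) ℝ E) (f : E × ℝ → ℝ) : Prop where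
  /-- `f` is of class `C¹` -/
  smooth : ContDiff ℝ 1 f
  /-- `f` is `Λ`-periodic in `x` -/
  perx : ∀ l ∈ Submodule.span ℤ (Set.range b), ∀ x t, f (x + l, t) = f (x, t)
  /-- `f` is `ℤ`-periodic in `t` -/
  pert : ∀ (m : ℤ) x t, f (x, t + m) = f (x, t)

/-- an orbit of the Euler-Lagrange equation `x'' = ∇ₓ f(x,t)` of `|v|²/2 + f(x,t)`, lifted to `E` and
defined for all times: `x' = v` and `v' = ∇ₓ f(x,t)` -/
structure IsOrbit (f : E × ℝ → ℝ) (x v : ℝ → E) : Prop where
  /-- `v` is the velocity -/
  dx : ∀ t, HasDerivAt x (v t) t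
  /-- the Euler-Lagrange equation -/
  dv : ∀ t, HasDerivAt v (gradient (fun y => f (y, t)) (x t)) t

end Pool.Agent.U788.ES
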