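import Mathlib

/-!
# ES: one oscillating mode; velocities which are resonant in a subspace
-/

set_option autoImplicit false

open Set Filter Topology MeasureTheory
open scoped RealInnerProductSpace

noncomputable section

namespace Pool.Agent.U788.ES

variable {E : Type} [NormedAddCommGroup E] [InnerProductSpace ℝ E] [FiniteDimensional ℝ E]

omit [FiniteDimensional ℝ E] in
/-- the integral of a mode whose frequency is large at the beginning -/
theorem osc (x v a : ℝ → E) (hx : ∀ t, HasDerivAt x (v t) t) (hv : ∀ t, HasDerivAt v (a t) t)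
    (M : ℝ) (ha : ∀ t, ‖a t‖ ≤ M) (k : E) (m ph A T σ : ℝ) (hM : 0 ≤ M) (hT : 0 ≤ T) (hA1 : 1 ≤ A)
    (hA : 2 * (‖k‖ * M * T + |m|) ≤ A) (hk : A < |⟪k, v σ⟫|) (t : ℝ) (ht : t ∈ Icc σ (σ + T)) :
    |∫ τ in σ..t, Real.sin (⟪k, x τ⟫ + m * τ + ph)| ≤ (4 + 4 * ‖k‖ * M * T) / A := by
  have hvl : ∀ s ∈ Icc σ (σ + T), ‖v s - v σ‖ ≤ M * T := by
    intro s hs
    have h1 : ‖v s - v σ‖ ≤ M * ‖s - σ‖ :=
      Convex.norm_image_sub_le_of_norm_hasDerivWithin_le (f := v) (f' := a) (s := Set.univ)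
        (fun s _ => (hv s).hasDerivWithinAt) (fun s _ => ha s) convex_univ (mem_univ _) (mem_univ _)
    refine h1.trans (mul_le_mul_of_nonneg_left ?_ hM)
    rw [Real.norm_eq_abs, abs_of_nonneg (by linarith [hs.1])]
    linarith [hs.2]
  set φ : ℝ → ℝ := fun s => ⟪k, x s⟫ + m * s + ph with hφ
  set ω : ℝ → ℝ := fun s => ⟪k, v s⟫ + m with hω
  have hωl : ∀ s ∈ Icc σ (σ + T), A / 2 ≤ |ω s| := by
    intro s hs
    have h1 : |⟪k, v s - v σ⟫| ≤ ‖k‖ * (M * T) :=
      (abs_real_inner_le_norm _ _).trans (mul_le_mul_of_nonneg_left (hvl s hs) (norm_nonneg _))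
    have h2 : ⟪k, v σ⟫ = ω s - ⟪k, v s - v σ⟫ - m := by
      simp only [hω, inner_sub_right]; ring
    have h3 : |⟪k, v σ⟫| ≤ |ω s| + |⟪k, v s - v σ⟫| + |m| := by
      rw [h2]
      refine (abs_sub _ _).trans ?_
      have := abs_sub (ω s) ⟪k, v s - v σ⟫
      linarith
    have h4 : ‖k‖ * (M * T) = ‖k‖ * M * T := by ring
    rw [h4] at h1
    linarith
  have hω0 : ∀ s ∈ Icc σ (σ + T), ω s ≠ 0 := by
    intro s hs h0
    have := hωl s hs
    rw [h0, abs_zero] at this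
    linarith
  have hdφ : ∀ s, HasDerivAt φ (ω s) s := by
    intro s
    have h1 : HasDerivAt (fun s => ⟪k, x s⟫) ⟪k, v s⟫ s := by
      simpa using (hasDerivAt_const s k).inner ℝ (hx s)
    have h2 : HasDerivAt (fun s : ℝ => m * s) m s := by
      simpa using (hasDerivAt_id s).const_mul m
    exact (h1.add h2).add_const ph
  have hdω : ∀ s, HasDerivAt ω ⟪k, a s⟫ s := by
    intro s
    have h1 : HasDerivAt (fun s => ⟪k, v s⟫) ⟪k, a s⟫ s := by
      simpa using (hasDerivAt_const s k).inner ℝ (hv s)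
    exact h1.add_const m
  have hcφ : Continuous φ := continuous_iff_continuousAt.2 fun s => (hdφ s).continuousAt
  have hcs : Continuous fun s => Real.sin (φ s) := Real.continuous_sin.comp hcφ
  set G : ℝ → ℝ := fun s => (∫ τ in σ..s, Real.sin (φ τ)) + Real.cos (φ s) / ω s with hG
  have hdG : ∀ s ∈ Icc σ (σ + T), HasDerivAt G (-(Real.cos (φ s) * ⟪k, a s⟫) / ω s ^ 2) s := by
    intro s hs
    have h1 : HasDerivAt (fun s => ∫ τ in σ..s, Real.sin (φ τ)) (Real.sin (φ s)) s :=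
      intervalIntegral.integral_hasDerivAt_right (hcs.intervalIntegrable _ _)
        (hcs.stronglyMeasurableAtFilter _ _) hcs.continuousAt
    have h2 := ((hdφ s).cos).div (hdω s) (hω0 s hs)
    refine (h1.add h2).congr_deriv ?_
    have := hω0 s hs
    field_simp
    ring
  have hbG : ∀ s ∈ Icc σ (σ + T), ‖-(Real.cos (φ s) * ⟪k, a s⟫) / ω s ^ 2‖ ≤ 4 * ‖k‖ * M / A := by
    intro s hs
    rw [norm_div, norm_neg, norm_mul, Real.norm_eq_abs, Real.norm_eq_abs, Real.norm_eq_abs]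
    have h1 : |⟪k, a s⟫| ≤ ‖k‖ * M :=
      (abs_real_inner_le_norm _ _).trans (mul_le_mul_of_nonneg_left (ha s) (norm_nonneg _))
    have h2 : |Real.cos (φ s)| ≤ 1 := Real.abs_cos_le_one _
    have h3 : |Real.cos (φ s)| * |⟪k, a s⟫| ≤ ‖k‖ * M := by
      calc _ ≤ 1 * (‖k‖ * M) := mul_le_mul h2 h1 (abs_nonneg _) zero_le_one
        _ = _ := one_mul _
    have h4 : A / 4 ≤ |ω s ^ 2| := by
      rw [abs_pow]
      have := hωl s hs
      nlinarith
    rw [div_le_div_iff₀ (by linarith) (by linarith)]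
    have h5 : 0 ≤ ‖k‖ * M := by positivity
    nlinarith [mul_le_mul_of_nonneg_left h4 h5, mul_le_mul_of_nonneg_right h3 (by linarith : (0 : ℝ) ≤ A)]
  have hcb : ∀ s ∈ Icc σ (σ + T), |Real.cos (φ s) / ω s| ≤ 2 / A := by
    intro s hs
    rw [abs_div, div_le_div_iff₀ (by have := hωl s hs; linarith) (by linarith)]
    have h2 : |Real.cos (φ s)| ≤ 1 := Real.abs_cos_le_one _
    have := hωl s hs
    nlinarith
  have h0 : σ ∈ Icc σ (σ + T) := ⟨le_refl _, by linarith⟩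
  have h5 : ‖G t - G σ‖ ≤ 4 * ‖k‖ * M / A * ‖t - σ‖ :=
    Convex.norm_image_sub_le_of_norm_hasDerivWithin_le (f := G)
      (f' := fun s => -(Real.cos (φ s) * ⟪k, a s⟫) / ω s ^ 2) (s := Icc σ (σ + T))
      (fun s hs => (hdG s hs).hasDerivWithinAt) hbG (convex_Icc _ _) h0 ht
  have h6 : ‖t - σ‖ ≤ T := by
    rw [Real.norm_eq_abs, abs_of_nonneg (by linarith [ht.1])]; linarith [ht.2]
  have h7 : ‖G t - G σ‖ ≤ 4 * ‖k‖ * M / A * T :=
    h5.trans (mul_le_mul_of_nonneg_left h6 (by positivity))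
  have h8 : G σ = Real.cos (φ σ) / ω σ := by simp [hG]
  have h9 : (∫ τ in σ..t, Real.sin (φ τ)) = (G t - G σ) + Real.cos (φ σ) / ω σ - Real.cos (φ t) / ω t := by
    rw [h8]; simp [hG]
  have h10 : |∫ τ in σ..t, Real.sin (φ τ)| ≤ 4 * ‖k‖ * M / A * T + 2 / A + 2 / A := by
    rw [h9]
    refine (abs_sub _ _).trans (add_le_add ((abs_add_le _ _).trans (add_le_add ?_ (hcb σ h0))) (hcb t ht))
    rw [← Real.norm_eq_abs]; exact h7
  refine h10.trans (le_of_eq ?_)
  field_simp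
  ring

/-- if `W` is spanned by modes whose product with `v` is bounded, the projection of `v` is bounded -/
theorem vbd {ι : Type} [Fintype ι] (K : ι → E) (A : ℝ) : ∃ V0 : ℝ, 0 ≤ V0 ∧
    ∀ (W : Submodule ℝ E) (v : E), W ≤ Submodule.span ℝ (K '' {μ | K μ ∈ W ∧ |⟪K μ, v⟫| ≤ A}) →
      ‖W.starProjection v‖ ≤ V0 := by
  classical
  have key : ∀ S : Finset ι, ∃ C : ℝ, 0 ≤ C ∧ ∀ w ∈ Submodule.span ℝ (K '' (S : Set ι)),
      (∀ μ ∈ S, |⟪K μ, w⟫| ≤ A) → ‖w‖ ≤ C := by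
    intro S
    set U : Submodule ℝ E := Submodule.span ℝ (K '' (S : Set ι)) with hU
    let L : U →ₗ[ℝ] (S → ℝ) := LinearMap.pi fun μ => (innerₛₗ ℝ (K μ)).comp U.subtype
    have hL : ∀ (w : U) (μ : S), L w μ = ⟪K μ, (w : E)⟫ := fun w μ => rfl
    have hker : LinearMap.ker L = ⊥ := by
      rw [LinearMap.ker_eq_bot']
      intro w hw
      have h1 : ∀ z ∈ U, ⟪z, (w : E)⟫ = 0 := by
        intro z hz
        refine Submodule.span_induction (p := fun z _ => ⟪z, (w : E)⟫ = 0) ?_ ?_ ?_ ?_ hz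
        · rintro z ⟨μ, hμ, rfl⟩
          have := congrFun hw ⟨μ, hμ⟩
          rw [hL] at this
          exact this
        · simp
        · intro a b _ _ ha hb; rw [inner_add_left, ha, hb, add_zero]
        · intro r a _ ha; rw [inner_smul_left, ha]; simp
      have h2 := h1 w w.2
      rw [inner_self_eq_zero] at h2
      exact Subtype.ext h2
    obtain ⟨C, hC, hC'⟩ := L.exists_antilipschitzWith hker
    refine ⟨C * |A|, by positivity, fun w hw hA => ?_⟩
    have h3 := hC'.le_mul_dist ⟨w, hw⟩ 0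
    rw [dist_zero_right, map_zero, dist_zero_right] at h3
    refine (show ‖w‖ = ‖(⟨w, hw⟩ : U)‖ from rfl).le.trans (h3.trans ?_)
    refine mul_le_mul_of_nonneg_left ?_ C.2
    rw [pi_norm_le_iff_of_nonneg (abs_nonneg A)]
    intro μ
    rw [hL, Real.norm_eq_abs]
    exact (hA μ μ.2).trans (le_abs_self A)
  choose C hC hC' using key
  refine ⟨∑ S : Finset ι, C S, Finset.sum_nonneg fun S _ => hC S, fun W v hW => ?_⟩
  set S : Finset ι := Finset.univ.filter fun μ => K μ ∈ W ∧ |⟪K μ, v⟫| ≤ A with hS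
  have hSe : (S : Set ι) = {μ | K μ ∈ W ∧ |⟪K μ, v⟫| ≤ A} := by
    ext μ; simp [hS]
  refine (hC' S (W.starProjection v) ?_ ?_).trans (Finset.single_le_sum (fun S _ => hC S) (Finset.mem_univ S))
  · rw [hSe]; exact hW (W.starProjection_apply_mem v)
  · intro μ hμ
    have hμ' : K μ ∈ W ∧ |⟪K μ, v⟫| ≤ A := by simpa [hS] using hμ
    have h1 : ⟪K μ, W.starProjection v⟫ = ⟪K μ, v⟫ := by
      have h2 := (Submodule.mem_orthogonal W _).1 (W.sub_starProjection_mem_orthogonal v) (K μ) hμ'.1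
      rw [inner_sub_right] at h2
      linarith
    rw [h1]; exact hμ'.2

end Pool.Agent.U788.ES
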