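import Pool.Agent.U788.ES.Bas
import Pool.Agent.U788.ES.Osc

/-!
# ES: orbits, energy lemma, fast modes
-/

set_option autoImplicit false

open Set Filter Topology MeasureTheory
open scoped RealInnerProductSpace

noncomputable section

namespace Pool.Agent.U788.ES

variable {E : Type} [NormedAddCommGroup E] [InnerProductSpace ℝ E] [FiniteDimensional ℝ E]
variable {ι : Type} [Fintype ι] {κ : Type} [Fintype κ]

/-- an orbit of the force `F` -/
structure Orb (F : E → ℝ → E) (x v : ℝ → E) : Prop where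
  dx : ∀ t, HasDerivAt x (v t) t
  dv : ∀ t, HasDerivAt v (F (x t) t) t

/-- the polynomial is close to the potential -/
structure Near (F : E → ℝ → E) (hh uu : E → ℝ → ℝ) (p : TP E ι) (η : ℝ) : Prop where
  g : ∀ x t, ‖p.g ⊤ x t - F x t‖ ≤ η
  h : ∀ x t, |p.h ⊤ x t - hh x t| ≤ η
  u : ∀ x t, |p.u ⊤ x t - uu x t| ≤ η

/-- the bounds of the potential -/
structure Bd (F : E → ℝ → E) (hh uu : E → ℝ → ℝ) (M : ℝ) : Prop where
  M1 : 1 ≤ M
  g : ∀ x t, ‖F x t‖ + 1 ≤ M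
  h : ∀ x t, |hh x t| + 1 ≤ M
  u : ∀ x t, |uu x t| + 1 ≤ M

theorem contr1 (p : TP E ι) {V : Type} [NormedAddCommGroup V] [NormedSpace ℝ V] (a : ι → V)
    (B t d : ℝ) (hB : ∀ x, ‖∑ μ ∈ p.sel ⊤, Real.sin (p.phi μ x t + d) • a μ‖ ≤ B)
    (W : Submodule ℝ E) (x : E) : ‖∑ μ ∈ p.sel W, Real.sin (p.phi μ x t + d) • a μ‖ ≤ B := by
  classical
  have h1 : ∀ x, ∀ μ, p.phi μ x t + d = ⟪p.K μ, x⟫ + (p.m μ * t + p.ph μ + d) := by
    intro x μ; simp only [TP.phi]; ring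
  have h2 := contr p.K (fun μ => p.m μ * t + p.ph μ + d) a B (fun x => ?_) W x
  · convert h2 using 4
    · simp only [TP.sel]
    · rw [h1]
  · have := hB x
    rw [TP.sel_top] at this
    convert this using 4
    rw [h1]

theorem contr2 (p : TP E ι) (q : TP E κ) {V : Type} [NormedAddCommGroup V] [NormedSpace ℝ V]
    (a : ι → V) (b : κ → V) (B t : ℝ)
    (hB : ∀ x, ‖(∑ μ ∈ p.sel ⊤, Real.sin (p.phi μ x t) • a μ) -
      ∑ μ ∈ q.sel ⊤, Real.sin (q.phi μ x t) • b μ‖ ≤ B) (W : Submodule ℝ E) (x : E) :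
    ‖(∑ μ ∈ p.sel W, Real.sin (p.phi μ x t) • a μ) -
      ∑ μ ∈ q.sel W, Real.sin (q.phi μ x t) • b μ‖ ≤ B := by
  classical
  have key : ∀ (W : Submodule ℝ E) (x : E), (∑ μ ∈ p.sel W, Real.sin (p.phi μ x t) • a μ) -
      ∑ μ ∈ q.sel W, Real.sin (q.phi μ x t) • b μ =
      ∑ j ∈ Finset.univ.filter (fun j : ι ⊕ κ => Sum.elim p.K q.K j ∈ W),
        Real.sin (⟪Sum.elim p.K q.K j, x⟫ +
          Sum.elim (fun μ => p.m μ * t + p.ph μ) (fun μ => q.m μ * t + q.ph μ) j) •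
          Sum.elim a (fun μ => -b μ) j := by
    intro W x
    rw [Finset.sum_filter, Fintype.sum_sum_type]
    simp only [Sum.elim_inl, Sum.elim_inr]
    rw [← Finset.sum_filter, ← Finset.sum_filter, sub_eq_add_neg, ← Finset.sum_neg_distrib]
    congr 1
    · refine Finset.sum_congr ?_ fun μ _ => ?_
      · simp only [TP.sel]
      · simp only [TP.phi, add_assoc]
    · refine Finset.sum_congr ?_ fun μ _ => ?_
      · simp only [TP.sel]
      · simp only [TP.phi, add_assoc, smul_neg]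
  rw [key]
  refine contr (ι := ι ⊕ κ) _ _ _ B (fun x => ?_) W x
  have h1 := hB x
  rw [key] at h1
  convert h1 using 2
  simp

variable {F : E → ℝ → E} {hh uu : E → ℝ → ℝ} {M : ℝ}

theorem Near.mono {p : TP E ι} {η η' : ℝ} (h : Near F hh uu p η) (hη : η ≤ η') : Near F hh uu p η' :=
  ⟨fun x t => (h.g x t).trans hη, fun x t => (h.h x t).trans hη, fun x t => (h.u x t).trans hη⟩

theorem Near.gW {p : TP E ι} {η : ℝ} (h : Near F hh uu p η) (hη : η ≤ 1) (hM : Bd F hh uu M)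
    (W : Submodule ℝ E) (x : E) (t : ℝ) : ‖p.g W x t‖ ≤ M := by
  have := contr1 p (fun μ => -p.c μ • p.K μ) M t 0 (fun x => ?_) W x
  · simpa [TP.g] using this
  · have h1 : ‖p.g ⊤ x t‖ ≤ M := by
      have h2 := h.g x t
      have h3 := hM.g x t
      have h4 : ‖p.g ⊤ x t‖ ≤ ‖p.g ⊤ x t - F x t‖ + ‖F x t‖ := by
        simpa using norm_add_le (p.g ⊤ x t - F x t) (F x t)
      linarith
    simpa [TP.g] using h1

theorem Near.hW {p : TP E ι} {η : ℝ} (h : Near F hh uu p η) (hη : η ≤ 1) (hM : Bd F hh uu M)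
    (W : Submodule ℝ E) (x : E) (t : ℝ) : |p.h W x t| ≤ M := by
  have := contr1 p (fun μ => -p.c μ * p.m μ) M t 0 (fun x => ?_) W x
  · simpa [TP.h] using this
  · have h1 : ‖p.h ⊤ x t‖ ≤ M := by
      have h2 := h.h x t
      have h3 := hM.h x t
      have h4 : ‖p.h ⊤ x t‖ ≤ ‖p.h ⊤ x t - hh x t‖ + ‖hh x t‖ := by
        simpa using norm_add_le (p.h ⊤ x t - hh x t) (hh x t)
      rw [Real.norm_eq_abs, Real.norm_eq_abs, Real.norm_eq_abs] at h4
      rw [Real.norm_eq_abs]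
      linarith
    simpa [TP.h] using h1

theorem Near.uW {p : TP E ι} {η : ℝ} (h : Near F hh uu p η) (hη : η ≤ 1) (hM : Bd F hh uu M)
    (W : Submodule ℝ E) (x : E) (t : ℝ) : |p.u W x t| ≤ M := by
  have hc : ∀ y : ℝ, Real.cos y = Real.sin (y + Real.pi / 2) := fun y => (Real.sin_add_pi_div_two y).symm
  have := contr1 p (fun μ => p.c μ) M t (Real.pi / 2) (fun x => ?_) W x
  · simp only [TP.u, hc]
    rw [← Real.norm_eq_abs]
    exact this
  · have h1 : ‖p.u ⊤ x t‖ ≤ M := by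
      have h2 := h.u x t
      have h3 := hM.u x t
      have h4 : ‖p.u ⊤ x t‖ ≤ ‖p.u ⊤ x t - uu x t‖ + ‖uu x t‖ := by
        simpa using norm_add_le (p.u ⊤ x t - uu x t) (uu x t)
      rw [Real.norm_eq_abs, Real.norm_eq_abs, Real.norm_eq_abs] at h4
      rw [Real.norm_eq_abs]
      linarith
    simpa only [TP.u, hc] using h1

theorem Near.gg {p : TP E ι} {q : TP E κ} {η : ℝ} (h : Near F hh uu p η) (h' : Near F hh uu q η)
    (W : Submodule ℝ E) (x : E) (t : ℝ) : ‖p.g W x t - q.g W x t‖ ≤ 2 * η := by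
  refine contr2 p q (fun μ => -p.c μ • p.K μ) (fun μ => -q.c μ • q.K μ) (2 * η) t (fun x => ?_) W x
  have h1 := h.g x t
  have h2 := h'.g x t
  have h3 : p.g ⊤ x t - q.g ⊤ x t = (p.g ⊤ x t - F x t) - (q.g ⊤ x t - F x t) := by abel
  have h4 : ‖p.g ⊤ x t - q.g ⊤ x t‖ ≤ 2 * η := by
    rw [h3]; exact (norm_sub_le _ _).trans (by linarith)
  exact h4

theorem Near.hhW {p : TP E ι} {q : TP E κ} {η : ℝ} (h : Near F hh uu p η) (h' : Near F hh uu q η)
    (W : Submodule ℝ E) (x : E) (t : ℝ) : |p.h W x t - q.h W x t| ≤ 2 * η := by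
  rw [← Real.norm_eq_abs]
  refine contr2 p q (fun μ => -p.c μ * p.m μ) (fun μ => -q.c μ * q.m μ) (2 * η) t (fun x => ?_) W x
  have h1 := h.h x t
  have h2 := h'.h x t
  have h3 : p.h ⊤ x t - q.h ⊤ x t = (p.h ⊤ x t - hh x t) - (q.h ⊤ x t - hh x t) := by ring
  have h4 : ‖p.h ⊤ x t - q.h ⊤ x t‖ ≤ 2 * η := by
    rw [h3, Real.norm_eq_abs]; exact (abs_sub _ _).trans (by linarith)
  exact h4

theorem TP.g_mem (p : TP E ι) (W : Submodule ℝ E) (x : E) (t : ℝ) : p.g W x t ∈ W := by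
  classical
  refine Submodule.sum_mem _ fun μ hμ => Submodule.smul_mem _ _ (Submodule.smul_mem _ _ ?_)
  simpa [TP.sel] using hμ

theorem phi_cont (p : TP E ι) (μ : ι) {x : ℝ → E} (hx : Continuous x) :
    Continuous fun τ => p.phi μ (x τ) τ := by
  unfold TP.phi; fun_prop

theorem g_cont (p : TP E ι) (W : Submodule ℝ E) {x : ℝ → E} (hx : Continuous x) :
    Continuous fun τ => p.g W (x τ) τ := by
  unfold TP.g
  exact continuous_finset_sum _ fun μ _ => (Real.continuous_sin.comp (phi_cont p μ hx)).smul continuous_const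

theorem h_cont (p : TP E ι) (W : Submodule ℝ E) {x : ℝ → E} (hx : Continuous x) :
    Continuous fun τ => p.h W (x τ) τ := by
  unfold TP.h
  exact continuous_finset_sum _ fun μ _ => (Real.continuous_sin.comp (phi_cont p μ hx)).smul continuous_const

theorem u_deriv (p : TP E ι) (W : Submodule ℝ E) {x v : ℝ → E} (hx : ∀ t, HasDerivAt x (v t) t) (t : ℝ) :
    HasDerivAt (fun t => p.u W (x t) t) (⟪p.g W (x t) t, v t⟫ + p.h W (x t) t) t := by
  have h1 : ∀ μ, HasDerivAt (fun t => p.phi μ (x t) t) (⟪p.K μ, v t⟫ + p.m μ) t := by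
    intro μ
    have h1 : HasDerivAt (fun s => ⟪p.K μ, x s⟫) ⟪p.K μ, v t⟫ t := by
      simpa using (hasDerivAt_const t (p.K μ)).inner ℝ (hx t)
    have h2 : HasDerivAt (fun s : ℝ => p.m μ * s) (p.m μ) t := by
      simpa using (hasDerivAt_id t).const_mul (p.m μ)
    exact (h1.add h2).add_const _
  have h2 : ∀ μ, HasDerivAt (fun t => Real.cos (p.phi μ (x t) t) • p.c μ)
      ((-Real.sin (p.phi μ (x t) t) * (⟪p.K μ, v t⟫ + p.m μ)) • p.c μ) t := fun μ => ((h1 μ).cos).smul_const _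
  have h3 := HasDerivAt.sum (u := p.sel W) (fun j (_ : j ∈ p.sel W) => h2 j)
  have h4 : (fun t => p.u W (x t) t) = ∑ j ∈ p.sel W, fun t => Real.cos (p.phi j (x t) t) • p.c j := by
    funext s; simp [TP.u]
  rw [h4]
  refine h3.congr_deriv ?_
  rw [TP.g, TP.h, sum_inner, ← Finset.sum_add_distrib]
  refine Finset.sum_congr rfl fun μ _ => ?_
  rw [inner_smul_left, inner_smul_left]
  simp
  ring

theorem inner_proj (W : Submodule ℝ E) (g v : E) (hg : g ∈ W) : ⟪g, v⟫ = ⟪g, W.starProjection v⟫ := by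
  have h2 := (Submodule.mem_orthogonal W _).1 (W.sub_starProjection_mem_orthogonal v) g hg
  rw [inner_sub_right] at h2
  linarith

theorem energy (p : TP E ι) (W : Submodule ℝ E) {x v : ℝ → E} (hx : ∀ t, HasDerivAt x (v t) t)
    (η s s' : ℝ) (hg : ∀ x t, ‖p.g W x t‖ ≤ M) (hu : ∀ x t, |p.u W x t| ≤ M) (hs : s ≤ s')
    (hρ : ∀ t ∈ Icc s s', ‖W.starProjection (v t - v s) - ∫ τ in s..t, p.g W (x τ) τ‖ ≤ η) :
    -(∫ τ in s..s', p.h W (x τ) τ) ≤
      2 * M + ‖W.starProjection (v s) + ∫ τ in s..s', p.g W (x τ) τ‖ ^ 2 / 2 + M * η * (s' - s) := by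
  have hxc : Continuous x := continuous_iff_continuousAt.2 fun s => (hx s).continuousAt
  have hgc := g_cont p W hxc
  have hhc := h_cont p W hxc
  set a : ℝ → E := fun t => W.starProjection (v s) + ∫ τ in s..t, p.g W (x τ) τ with ha
  have hda : ∀ t, HasDerivAt a (p.g W (x t) t) t := fun t =>
    (intervalIntegral.integral_hasDerivAt_right (hgc.intervalIntegrable _ _)
      (hgc.stronglyMeasurableAtFilter _ _) hgc.continuousAt).const_add _
  have hdh : ∀ t, HasDerivAt (fun t => ∫ τ in s..t, p.h W (x τ) τ) (p.h W (x t) t) t := fun t =>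
    intervalIntegral.integral_hasDerivAt_right (hhc.intervalIntegrable _ _)
      (hhc.stronglyMeasurableAtFilter _ _) hhc.continuousAt
  set Θ : ℝ → ℝ := fun t => -(∫ τ in s..t, p.h W (x τ) τ) + p.u W (x t) t - ‖a t‖ ^ 2 / 2 with hΘ
  have hdΘ : ∀ t, HasDerivAt Θ ⟪p.g W (x t) t, W.starProjection (v t) - a t⟫ t := by
    intro t
    have h1 := (((hdh t).neg).add (u_deriv p W hx t)).sub (((hda t).norm_sq).div_const 2)
    refine h1.congr_deriv ?_
    rw [inner_sub_right, ← inner_proj W _ (v t) (p.g_mem W _ _), real_inner_comm (a t)]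
    ring
  have hb : ∀ t ∈ Icc s s', ‖⟪p.g W (x t) t, W.starProjection (v t) - a t⟫‖ ≤ M * η := by
    intro t ht
    refine (norm_inner_le_norm _ _).trans (mul_le_mul (hg _ _) ?_ (norm_nonneg _) ((norm_nonneg _).trans (hg (x t) t)))
    have h1 := hρ t ht
    rw [map_sub] at h1
    have h2 : W.starProjection (v t) - a t =
        W.starProjection (v t) - W.starProjection (v s) - ∫ τ in s..t, p.g W (x τ) τ := by
      simp only [ha]; abel
    rw [h2]; exact h1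
  have h5 : ‖Θ s' - Θ s‖ ≤ M * η * ‖s' - s‖ :=
    Convex.norm_image_sub_le_of_norm_hasDerivWithin_le (f := Θ)
      (f' := fun t => ⟪p.g W (x t) t, W.starProjection (v t) - a t⟫) (s := Icc s s')
      (fun t _ => (hdΘ t).hasDerivWithinAt) hb (convex_Icc _ _) ⟨le_refl _, hs⟩ ⟨hs, le_refl _⟩
  rw [Real.norm_eq_abs, Real.norm_eq_abs, abs_of_nonneg (by linarith : 0 ≤ s' - s)] at h5
  have h6 := (abs_le.1 h5).2
  have h7 : Θ s = p.u W (x s) s - ‖a s‖ ^ 2 / 2 := by simp [hΘ]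
  have h8 : Θ s' = -(∫ τ in s..s', p.h W (x τ) τ) + p.u W (x s') s' - ‖a s'‖ ^ 2 / 2 := rfl
  have h9 := abs_le.1 (hu (x s) s)
  have h10 := abs_le.1 (hu (x s') s')
  have h11 : 0 ≤ ‖a s‖ ^ 2 / 2 := by positivity
  have h12 : ‖a s'‖ = ‖W.starProjection (v s) + ∫ τ in s..s', p.g W (x τ) τ‖ := rfl
  rw [← h12]
  linarith [h9.1, h9.2, h10.1, h10.2]

/-- the modes outside of `W'` oscillate quickly -/
theorem fast (p : TP E ι) {V : Type} [NormedAddCommGroup V] [NormedSpace ℝ V] [CompleteSpace V]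
    (a : ι → V) (δ T M : ℝ) (hδ : 0 < δ) (hT : 0 ≤ T) (hM : 0 ≤ M) :
    ∃ A0 : ℝ, 1 ≤ A0 ∧ ∀ A ≥ A0, ∀ x v, Orb F x v → (∀ x t, ‖F x t‖ ≤ M) → ∀ (σ : ℝ)
      (W W' : Submodule ℝ E), W' ≤ W → (∀ μ, p.K μ ∈ W → p.K μ ∉ W' → A < |⟪p.K μ, v σ⟫|) →
      ∀ t ∈ Icc σ (σ + T), ‖(∫ τ in σ..t, ∑ μ ∈ p.sel W, Real.sin (p.phi μ (x τ) τ) • a μ) -
        ∫ τ in σ..t, ∑ μ ∈ p.sel W', Real.sin (p.phi μ (x τ) τ) • a μ‖ ≤ δ := by
  classical
  set C1 : ℝ := ∑ μ, 2 * (‖p.K μ‖ * M * T + |p.m μ|) with hC1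
  set C2 : ℝ := ∑ μ, (4 + 4 * ‖p.K μ‖ * M * T) * ‖a μ‖ with hC2
  have hC1' : 0 ≤ C1 := Finset.sum_nonneg fun μ _ => by positivity
  have hC2' : 0 ≤ C2 := Finset.sum_nonneg fun μ _ => by positivity
  refine ⟨1 + C1 + C2 / δ, by have : 0 ≤ C2 / δ := by positivity
                              linarith, ?_⟩
  intro A hA x v ho hF σ W W' hWW hf t ht
  have hA' : 1 + C1 + C2 / δ ≤ A := hA
  have hq : 0 ≤ C2 / δ := by positivity
  have hxc : Continuous x := continuous_iff_continuousAt.2 fun s => (ho.dx s).continuousAt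
  have hi : ∀ U : Submodule ℝ E, (∫ τ in σ..t, ∑ μ ∈ p.sel U, Real.sin (p.phi μ (x τ) τ) • a μ) =
      ∑ μ ∈ p.sel U, (∫ τ in σ..t, Real.sin (p.phi μ (x τ) τ)) • a μ := by
    intro U
    rw [intervalIntegral.integral_finset_sum]
    · refine Finset.sum_congr rfl fun μ _ => ?_
      rw [intervalIntegral.integral_smul_const]
    · intro μ _
      exact ((Real.continuous_sin.comp (phi_cont p μ hxc)).smul continuous_const).intervalIntegrable _ _
  rw [hi, hi]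
  have hsub : p.sel W' ⊆ p.sel W := by
    intro μ hμ
    have h1 : p.K μ ∈ W' := by simpa [TP.sel] using hμ
    have h2 : p.K μ ∈ W := hWW h1
    simpa [TP.sel] using h2
  rw [← Finset.sum_sdiff hsub, add_sub_cancel_right]
  have h1 : ∀ μ ∈ p.sel W \ p.sel W', ‖(∫ τ in σ..t, Real.sin (p.phi μ (x τ) τ)) • a μ‖ ≤
      (4 + 4 * ‖p.K μ‖ * M * T) * ‖a μ‖ / A := by
    intro μ hμ
    have hμ' : p.K μ ∈ W ∧ p.K μ ∉ W' := by simpa [TP.sel] using hμ
    have h2 : 2 * (‖p.K μ‖ * M * T + |p.m μ|) ≤ C1 :=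
      Finset.single_le_sum (f := fun μ => 2 * (‖p.K μ‖ * M * T + |p.m μ|))
        (fun μ _ => by positivity) (Finset.mem_univ μ)
    have h3 := osc x v (fun t => F (x t) t) ho.dx ho.dv M (fun t => hF _ _) (p.K μ) (p.m μ) (p.ph μ) A T σ
      hM hT (by linarith) (by linarith) (hf μ hμ'.1 hμ'.2) t ht
    rw [norm_smul, Real.norm_eq_abs]
    calc _ ≤ (4 + 4 * ‖p.K μ‖ * M * T) / A * ‖a μ‖ := mul_le_mul_of_nonneg_right h3 (norm_nonneg _)
      _ = _ := by ring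
  have hA0 : 0 < A := by linarith
  refine (norm_sum_le _ _).trans ((Finset.sum_le_sum h1).trans ?_)
  rw [← Finset.sum_div, div_le_iff₀ hA0]
  have h4 : ∑ μ ∈ p.sel W \ p.sel W', (4 + 4 * ‖p.K μ‖ * M * T) * ‖a μ‖ ≤ C2 :=
    Finset.sum_le_sum_of_subset_of_nonneg (Finset.subset_univ _) fun μ _ _ => by positivity
  have h5 : C2 / δ ≤ A := by linarith
  rw [div_le_iff₀ hδ] at h5
  linarith

end Pool.Agent.U788.ES
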